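import Pool.Agent.J4H67.SH.Fin

/-!
Self-avoiding walks on `ℤ³`: upper bounds for `c_n` at some lengths and lower bounds at other
lengths, each set meeting all windows `[n, n + n^(1/2-ε)]` in both parities, give the asymptotic law
with the same error term at all lengths.
-/

set_option autoImplicit false

namespace Pool.Agent.Results.MP_794e6e_pr.InterlacedWindows

open Filter Topology

/-- the number of `n`-step self-avoiding nearest-neighbour walks on `ℤ³` from `0` -/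
noncomputable def c (n : ℕ) : ℕ :=
  Nat.card {f : Fin (n + 1) → (Fin 3 → ℤ) //
    f 0 = 0 ∧ Function.Injective f ∧
    ∀ i : Fin n, ∑ j : Fin 3, |f i.succ j - f i.castSucc j| = 1}

/-- `S` meets every window `[n, n + n ^ ρ]`, `n` large, in a number of the parity of `n`. -/
def Meets (S : Set ℕ) (ρ : ℝ) : Prop :=
  ∀ᶠ n : ℕ in atTop, ∃ s ∈ S, n ≤ s ∧ (s : ℝ) ≤ n + (n : ℝ) ^ ρ ∧ s % 2 = n % 2

/-- the numbers of the parity of `n` in `[n, n + n ^ ρ]` -/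
noncomputable def window (ρ : ℝ) (n : ℕ) : Finset ℕ :=
  (Finset.Icc n (n + ⌊(n : ℝ) ^ ρ⌋₊)).filter fun m => m % 2 = n % 2

/-- The differences of order `r ≥ 1` with step `2` of `φ` are `O(n ^ (-κ r))`, for every `r`. -/
def Smooth (κ : ℝ) (φ : ℕ → ℝ) : Prop :=
  ∀ r : ℕ, 1 ≤ r → ∃ C : ℝ, ∀ n : ℕ, 1 ≤ n →
    |∑ i ∈ Finset.range (r + 1), (-1 : ℝ) ^ i * (r.choose i : ℝ) * φ (n + 2 * i)| ≤
      C * (n : ℝ) ^ (-(κ * r))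

/-- **Theorem.** On `ℤ³` let `μ = lim c_n^(1/n)`.
(a) Let `0 < ε ≤ 1/2`, let `S` and `S'` be sets of lengths that meet every window
`[n, n + n^(1/2-ε)]`, `n` large, in the parity of `n`, and let `A > 0`. If
`c_n ≤ (1 + o(1)) A μ^n n^(γ-1)` along `S` and `c_n ≥ (1 - o(1)) A μ^n n^(γ-1)` along `S'`, then
`c_n / (A μ^n n^(γ-1)) → 1` along all `n`; and for each `D > 0`, if both bounds hold with
`O(n^(-D))` in place of `o(1)`, then `c_n = A μ^n n^(γ-1) (1 + O(n^(-D)))` for all `n`.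
(b) Let `0 ≤ b ≤ 1/3` and `0 < ε ≤ (1-b)/2`. The same with windows `[n, n + n^((1-b)/2-ε)]` for
`log (c_n / μ^n)` and any comparison sequence `φ` whose differences of order `r` with step `2` are
`O(n^(-κ r))` for all `r ≥ 1`, for some `κ > (1-b)/2 - ε`, and with `φ(n) ≤ n^(b+o(1))` along `S` (no
condition if `b = 1/3`), and every `D ≥ 0`.
(c) The law with remainder `O(n^(-D))`, `D > 0`, in some weighted mean over the lengths of the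
parity of `n` in each window `[n, n + n^(1/2-ε)]` gives it at all lengths. -/
theorem result : ∃ μ : ℝ, 0 < μ ∧
    Tendsto (fun n : ℕ => (c n : ℝ) ^ (1 / (n : ℝ))) atTop (𝓝 μ) ∧
    (∀ (ε : ℝ) (S S' : Set ℕ) (A γ : ℝ), 0 < ε → ε ≤ 1 / 2 →
        Meets S (1 / 2 - ε) → Meets S' (1 / 2 - ε) → 0 < A →
        ((∀ δ : ℝ, 0 < δ → ∀ᶠ n : ℕ in atTop ⊓ 𝓟 S,
            (c n : ℝ) ≤ (1 + δ) * (A * μ ^ n * (n : ℝ) ^ (γ - 1))) →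
          (∀ δ : ℝ, 0 < δ → ∀ᶠ n : ℕ in atTop ⊓ 𝓟 S',
            (1 - δ) * (A * μ ^ n * (n : ℝ) ^ (γ - 1)) ≤ (c n : ℝ)) →
          Tendsto (fun n : ℕ => (c n : ℝ) / (A * μ ^ n * (n : ℝ) ^ (γ - 1))) atTop (𝓝 1)) ∧
        ∀ D : ℝ, 0 < D →
          (∃ C : ℝ, ∀ᶠ n : ℕ in atTop ⊓ 𝓟 S,
            (c n : ℝ) ≤ (1 + C * (n : ℝ) ^ (-D)) * (A * μ ^ n * (n : ℝ) ^ (γ - 1))) →
          (∃ C : ℝ, ∀ᶠ n : ℕ in atTop ⊓ 𝓟 S',
            (1 - C * (n : ℝ) ^ (-D)) * (A * μ ^ n * (n : ℝ) ^ (γ - 1)) ≤ (c n : ℝ)) →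
          (fun n : ℕ => (c n : ℝ) / (A * μ ^ n * (n : ℝ) ^ (γ - 1)) - 1) =O[atTop]
            fun n : ℕ => (n : ℝ) ^ (-D)) ∧
    (∀ (b ε : ℝ) (S S' : Set ℕ) (κ : ℝ) (φ : ℕ → ℝ), 0 ≤ b → b ≤ 1 / 3 →
        0 < ε → ε ≤ (1 - b) / 2 → Meets S ((1 - b) / 2 - ε) → Meets S' ((1 - b) / 2 - ε) →
        (1 - b) / 2 - ε < κ → Smooth κ φ →
        (b = 1 / 3 ∨ ∀ b' : ℝ, b < b' → ∀ᶠ n : ℕ in atTop ⊓ 𝓟 S, φ n ≤ (n : ℝ) ^ b') →
        ((∀ δ : ℝ, 0 < δ → ∀ᶠ n : ℕ in atTop ⊓ 𝓟 S, Real.log ((c n : ℝ) / μ ^ n) ≤ φ n + δ) →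
          (∀ δ : ℝ, 0 < δ → ∀ᶠ n : ℕ in atTop ⊓ 𝓟 S', φ n - δ ≤ Real.log ((c n : ℝ) / μ ^ n)) →
          Tendsto (fun n : ℕ => Real.log ((c n : ℝ) / μ ^ n) - φ n) atTop (𝓝 0)) ∧
        ∀ D : ℝ, 0 ≤ D →
          (∃ C : ℝ, ∀ᶠ n : ℕ in atTop ⊓ 𝓟 S,
            Real.log ((c n : ℝ) / μ ^ n) ≤ φ n + C * (n : ℝ) ^ (-D)) →
          (∃ C : ℝ, ∀ᶠ n : ℕ in atTop ⊓ 𝓟 S',
            φ n - C * (n : ℝ) ^ (-D) ≤ Real.log ((c n : ℝ) / μ ^ n)) →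
          (fun n : ℕ => Real.log ((c n : ℝ) / μ ^ n) - φ n) =O[atTop]
            fun n : ℕ => (n : ℝ) ^ (-D)) ∧
    ∀ (ε A γ : ℝ) (w : ℕ → ℕ → ℝ), 0 < ε → ε ≤ 1 / 2 → 0 < A → (∀ n m, 0 ≤ w n m) →
        (∀ n, ∑ m ∈ window (1 / 2 - ε) n, w n m = 1) → ∀ D : ℝ, 0 < D →
        ((fun n : ℕ => ∑ m ∈ window (1 / 2 - ε) n,
            w n m * ((c m : ℝ) / (A * μ ^ m * (m : ℝ) ^ (γ - 1))) - 1) =O[atTop]
          fun n : ℕ => (n : ℝ) ^ (-D)) →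
        (fun n : ℕ => (c n : ℝ) / (A * μ ^ n * (n : ℝ) ^ (γ - 1)) - 1) =O[atTop]
          fun n : ℕ => (n : ℝ) ^ (-D) := by
  have hC : ∀ n, c n = Pool.Agent.H46R2.K3.c n := fun n => Pool.Agent.H46R2.K3.P.card_eq n
  have hμ := Pool.Agent.J4H67.SH.mu_pos
  refine ⟨Pool.Agent.H46R2.K3.mu, hμ, ?_, ?_⟩
  · simpa only [hC] using Pool.Agent.H46R2.K3.P.tendsto_c
  have e : ∀ (A g : ℝ) (n : ℕ), (c n : ℝ) / (A * Pool.Agent.H46R2.K3.mu ^ n * (n : ℝ) ^ g) =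
      Pool.Agent.J4H67.SH.uu n / (A * (n : ℝ) ^ g) := by
    intro A g n
    rw [hC, Pool.Agent.J4H67.SH.uu, div_div]
    congr 1
    ring
  have eU : ∀ (A g x : ℝ) (n : ℕ),
      (c n : ℝ) ≤ x * (A * Pool.Agent.H46R2.K3.mu ^ n * (n : ℝ) ^ g) ↔
        Pool.Agent.J4H67.SH.uu n ≤ x * (A * (n : ℝ) ^ g) := by
    intro A g x n
    rw [hC, Pool.Agent.J4H67.SH.uu, div_le_iff₀ (pow_pos hμ n)]
    constructor <;> intro h1 <;> refine h1.trans (le_of_eq ?_) <;> ring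
  have eL : ∀ (A g x : ℝ) (n : ℕ),
      x * (A * Pool.Agent.H46R2.K3.mu ^ n * (n : ℝ) ^ g) ≤ (c n : ℝ) ↔
        x * (A * (n : ℝ) ^ g) ≤ Pool.Agent.J4H67.SH.uu n := by
    intro A g x n
    rw [hC, Pool.Agent.J4H67.SH.uu, le_div_iff₀ (pow_pos hμ n)]
    constructor <;> intro h1 <;> refine le_trans (le_of_eq ?_) h1 <;> ring
  refine ⟨fun ε S S' A γ hε hε' hS hS' hA => ?_,
    fun b ε S S' κ φ hb hb1 hε hε' hS hS' hκ hφ hg => ?_,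
    fun ε A γ w hε hε' hA hw hw1 D hD h => ?_⟩
  · simp only [eU, eL, e]
    exact Pool.Agent.J4H67.SH.inter_power hε hε' hS hS' hA (γ - 1)
  · simp only [hC]
    exact Pool.Agent.J4H67.SH.inter_gen hb hb1 hε hε' hS hS' hκ hφ hg
  · simp only [e] at h ⊢
    exact Pool.Agent.J4H67.SH.inter_mean hε hε' hA (γ - 1) hw hw1 hD h

end Pool.Agent.Results.MP_794e6e_pr.InterlacedWindows
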