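import Pool.Agent.J4H67.SH.Sum

/-!
Self-avoiding walks on `ℤ³`: a bound for the iterated sums of `c_n / μ^n - A n^(γ-1)` that allows for
fluctuations gives the asymptotic law for every single `c_n`, with a remainder.
-/

set_option autoImplicit false

namespace Pool.Agent.Results.MP_794e6e_pr.IteratedSums

open Filter Topology

/-- the number of `n`-step self-avoiding nearest-neighbour walks on `ℤ³` from `0` -/
noncomputable def c (n : ℕ) : ℕ :=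
  Nat.card {f : Fin (n + 1) → (Fin 3 → ℤ) //
    f 0 = 0 ∧ Function.Injective f ∧
    ∀ i : Fin n, ∑ j : Fin 3, |f i.succ j - f i.castSucc j| = 1}

/-- the difference with step `2` -/
def diff (F : ℕ → ℝ) (n : ℕ) : ℝ := F (n + 2) - F n

/-- **Theorem.** On `ℤ³` let `μ = lim c_n^(1/n)`. Let `k ≥ 0`, `A > 0`, `D > k/2`, and let
`c_n / μ^n - A n^(γ-1)` be, for all large `n`, the `k`-th difference with step `2` of a sequence
`F(n) = O(n^(γ-1+k-D))` (a `k` times iterated sum of it). Then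
`c_n = A μ^n n^(γ-1) (1 + O(n^(-(D-k/2)+δ)))` for every `δ > 0`; in particular
`c_n / (A μ^n n^(γ-1)) → 1`. -/
theorem result : ∃ μ : ℝ, 0 < μ ∧
    Tendsto (fun n : ℕ => (c n : ℝ) ^ (1 / (n : ℝ))) atTop (𝓝 μ) ∧
    ∀ (k : ℕ) (A γ D : ℝ) (F : ℕ → ℝ), 0 < A → (k : ℝ) / 2 < D →
      (F =O[atTop] fun n : ℕ => (n : ℝ) ^ (γ - 1 + k - D)) →
      (∀ᶠ n : ℕ in atTop, diff^[k] F n = (c n : ℝ) / μ ^ n - A * (n : ℝ) ^ (γ - 1)) →
      Tendsto (fun n : ℕ => (c n : ℝ) / (A * μ ^ n * (n : ℝ) ^ (γ - 1))) atTop (𝓝 1) ∧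
      ∀ δ : ℝ, 0 < δ →
        (fun n : ℕ => (c n : ℝ) / (A * μ ^ n * (n : ℝ) ^ (γ - 1)) - 1) =O[atTop]
          fun n : ℕ => (n : ℝ) ^ (-(D - k / 2) + δ) := by
  have hC : ∀ n, c n = Pool.Agent.H46R2.K3.c n := fun n => Pool.Agent.H46R2.K3.P.card_eq n
  have hμ := Pool.Agent.J4H67.SH.mu_pos
  refine ⟨Pool.Agent.H46R2.K3.mu, hμ, ?_, ?_⟩
  · simpa only [hC] using Pool.Agent.H46R2.K3.P.tendsto_c
  intro k A γ D F hA hD hF hf
  have e : ∀ (A g : ℝ) (n : ℕ), (c n : ℝ) / (A * Pool.Agent.H46R2.K3.mu ^ n * (n : ℝ) ^ g) =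
      Pool.Agent.J4H67.SH.uu n / (A * (n : ℝ) ^ g) := by
    intro A g n
    rw [hC, Pool.Agent.J4H67.SH.uu, div_div]
    congr 1
    ring
  have hf' : ∀ᶠ n : ℕ in atTop, (Pool.Agent.J4H67.SH.Dh 1)^[k] F n =
      Pool.Agent.J4H67.SH.uu n - A * (n : ℝ) ^ (γ - 1) := by
    filter_upwards [hf] with n hn
    have h1 : Pool.Agent.J4H67.SH.Dh 1 = diff := by
      funext f n
      rfl
    rw [h1, hn, hC]
    rfl
  have main : ∀ δ : ℝ, 0 < δ →
      (fun n : ℕ => (c n : ℝ) / (A * Pool.Agent.H46R2.K3.mu ^ n * (n : ℝ) ^ (γ - 1)) - 1)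
        =O[atTop] fun n : ℕ => (n : ℝ) ^ (-(D - k / 2) + δ) := by
    intro δ hδ
    simp only [e]
    exact Pool.Agent.J4H67.SH.sum_law hA (γ - 1) hD hF hf' hδ
  refine ⟨?_, main⟩
  have h2 := main ((D - k / 2) / 2) (by linarith)
  have h3 : Tendsto (fun n : ℕ => (n : ℝ) ^ (-(D - (k : ℝ) / 2) + (D - k / 2) / 2)) atTop
      (𝓝 0) := by
    have h4 := (tendsto_rpow_neg_atTop (show 0 < (D - (k : ℝ) / 2) / 2 by linarith)).comp
      tendsto_natCast_atTop_atTop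
    refine h4.congr fun n => ?_
    show (n : ℝ) ^ (-((D - (k : ℝ) / 2) / 2)) = _
    congr 1
    ring
  have h5 := (h2.trans_tendsto h3).add_const 1
  simpa using h5

end Pool.Agent.Results.MP_794e6e_pr.IteratedSums
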