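import Pool.Agent.J4H21.EE.Cl
import Pool.Agent.J4H15.EE.Kill
import Pool.Agent.J4H15.EE.Unc
import Pool.Agent.J4H81.EE.Rot
import Pool.Agent.J4H81.EE.Two
import Pool.Agent.J4H21.EE.Base
import Pool.Agent.J4H57.EE.Den
import Pool.Agent.J4H57.EE.Bal
import Pool.Agent.J4H87.EE.Tr
import Pool.Agent.J4H87.EE.Fin

/-!
# Self-avoiding walks on `ℤ³`: the one-step ratio `c_{n+1} / c_n`
-/

set_option autoImplicit false

namespace Pool.Agent.Results.MP_794e6e_pr.OneStepRatio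

open Filter Topology

/-- the number of `n`-step self-avoiding nearest-neighbour walks on `ℤ³` from `0` -/
noncomputable def c (n : ℕ) : ℕ :=
  Nat.card {f : Fin (n + 1) → (Fin 3 → ℤ) //
    f 0 = 0 ∧ Function.Injective f ∧
    ∀ i : Fin n, ∑ j : Fin 3, |f i.succ j - f i.castSucc j| = 1}

/-- **Theorem.** On `ℤ³`: (1) `c_{n+2} + 25 c_n ≥ 10 c_{n+1}` for all odd `n`. (2) For the limit `μ` of `c_n^(1/n)` and every
`ε > 0`, for all large `n`: `10 μ² / (25 + μ²) - ε ≤ c_{n+1} / c_n ≤ (25 + μ²) / 10 + ε`. (3) In particular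
`0.966 μ ≤ c_{n+1} / c_n ≤ 1.035 μ` for all large `n` (by `μ ≥ 3.85`). -/
theorem result :
    (∀ n : ℕ, n % 2 = 1 → 10 * c (n + 1) ≤ c (n + 2) + 25 * c n) ∧
    ∃ μ : ℝ, 0 < μ ∧ Tendsto (fun n : ℕ => (c n : ℝ) ^ (1 / (n : ℝ))) atTop (𝓝 μ) ∧
      (∀ ε : ℝ, 0 < ε → ∀ᶠ n : ℕ in atTop,
        10 * μ ^ 2 / (25 + μ ^ 2) - ε ≤ (c (n + 1) : ℝ) / c n ∧
          (c (n + 1) : ℝ) / c n ≤ (25 + μ ^ 2) / 10 + ε) ∧
      ∀ᶠ n : ℕ in atTop, 0.966 * μ ≤ (c (n + 1) : ℝ) / c n ∧ (c (n + 1) : ℝ) / c n ≤ 1.035 * μ := by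
  obtain ⟨μ, hB, hcard, hlim⟩ := Pool.Agent.J4H21.EE.t_BASE
  have hTR := Pool.Agent.J4H87.EE.t_TR Pool.Agent.J4H57.EE.t_BAL Pool.Agent.J4H57.EE.t_DEN
  have hUNC := Pool.Agent.J4H15.EE.t_UNC hTR Pool.Agent.J4H81.EE.t_ROT
  have hCL := Pool.Agent.J4H21.EE.t_CL hUNC (Pool.Agent.J4H15.EE.t_KILL Pool.Agent.J4H81.EE.t_PRE)
  have hFIN := Pool.Agent.J4H87.EE.t_FIN Pool.Agent.J4H81.EE.t_TWO hCL
  have hc : ∀ n, (Pool.Agent.J4H21.EE.S n).card = c n := hcard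
  have hge := hB.ge
  have hle := hB.le
  have hμ : 0 < μ := by linarith
  have hF : ∀ ε : ℝ, 0 < ε → ∀ᶠ n : ℕ in atTop,
      10 * μ ^ 2 / (25 + μ ^ 2) - ε ≤ (c (n + 1) : ℝ) / c n ∧
        (c (n + 1) : ℝ) / c n ≤ (25 + μ ^ 2) / 10 + ε := by
    intro ε hε
    filter_upwards [hFIN μ hB ε hε] with n hn
    rw [hc, hc] at hn
    exact hn
  refine ⟨?_, μ, hμ, ?_, hF, ?_⟩
  · intro n hn
    have h1 := Pool.Agent.J4H81.EE.t_TWO n (by omega)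
    have h2 := Pool.Agent.J4H81.EE.t_PAR (n + 2) (by omega)
    rw [h2, Finset.card_empty, hc, hc, hc] at h1
    omega
  · refine hlim.congr fun n => ?_
    rw [hc]
  · filter_upwards [hF (1 / 5000) (by norm_num)] with n hn
    obtain ⟨h1, h2⟩ := hn
    have hmm := mul_nonneg (sub_nonneg.mpr hge) (sub_nonneg.mpr hle)
    have hmm2 := mul_nonneg hmm hμ.le
    have hq : (25 + μ ^ 2) / 10 + 1 / 5000 ≤ 1.035 * μ := by nlinarith
    refine ⟨le_trans ?_ h1, h2.trans hq⟩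
    have h3 : 0 < 25 + μ ^ 2 := by positivity
    have h4 : (0.966 * μ + 1 / 5000) * (25 + μ ^ 2) ≤ 10 * μ ^ 2 := by nlinarith
    have h5 : 0.966 * μ + 1 / 5000 ≤ 10 * μ ^ 2 / (25 + μ ^ 2) := by
      rw [le_div_iff₀ h3]
      exact h4
    linarith

end Pool.Agent.Results.MP_794e6e_pr.OneStepRatio
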