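import Pool.Agent.J4H67.SH.Rat

/-!
Self-avoiding walks on `ℤ³`: an upper bound for `c_n` along sparse lengths gives regularity of all
orders at all lengths; a power law for `c_n` with remainder `O(n^(-D))`, `D > 1/2`, implies the law
of the ratios `c_{n+2} / c_n` that the ratio method uses.
-/

set_option autoImplicit false

namespace Pool.Agent.Results.MP_794e6e_pr.SelfImprovingRegularity

open Filter Topology

/-- the number of `n`-step self-avoiding nearest-neighbour walks on `ℤ³` from `0` -/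
noncomputable def c (n : ℕ) : ℕ :=
  Nat.card {f : Fin (n + 1) → (Fin 3 → ℤ) //
    f 0 = 0 ∧ Function.Injective f ∧
    ∀ i : Fin n, ∑ j : Fin 3, |f i.succ j - f i.castSucc j| = 1}

/-- `S` meets every window `[n, n + n ^ ρ]`, `n` large, in a number of the parity of `n`. -/
def Meets (S : Set ℕ) (ρ : ℝ) : Prop :=
  ∀ᶠ n : ℕ in atTop, ∃ s ∈ S, n ≤ s ∧ (s : ℝ) ≤ n + (n : ℝ) ^ ρ ∧ s % 2 = n % 2

/-- The difference of order `j` with step `2`, up to sign. -/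
noncomputable def diff (j : ℕ) (φ : ℕ → ℝ) (n : ℕ) : ℝ :=
  ∑ i ∈ Finset.range (j + 1), (-1 : ℝ) ^ i * (j.choose i : ℝ) * φ (n + 2 * i)

/-- The differences of order `r` with step `2` of `φ` are `O(n ^ (-κ r))`, for every `r ≥ 1`. -/
def Smooth (κ : ℝ) (φ : ℕ → ℝ) : Prop :=
  ∀ r : ℕ, 1 ≤ r → ∃ C : ℝ, ∀ n : ℕ, 1 ≤ n → |diff r φ n| ≤ C * (n : ℝ) ^ (-(κ * r))

/-- `φ(n) ≤ n ^ (b + o(1))` along `S`; no condition if `b = 1/3`. -/
def Grows (b : ℝ) (S : Set ℕ) (φ : ℕ → ℝ) : Prop :=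
  b = 1 / 3 ∨ ∀ b' : ℝ, b < b' → ∀ᶠ n : ℕ in atTop ⊓ 𝓟 S, φ n ≤ (n : ℝ) ^ b'

/-- **Theorem.** On `ℤ³` let `μ = lim c_n^(1/n)`, `0 ≤ b ≤ 1/3`, `0 < ε ≤ (1-b)/2`, and let `S` be a
set of lengths that meets every window `[n, n + n^((1-b)/2-ε)]`, `n` large, in the parity of `n`.
(a) If `log (c_n / μ^n) ≤ n^(b+o(1))` along `S`, then this holds along all `n`, and for all `j ≥ 1` and
`δ > 0` the difference of order `j` with step `2` of `log (c_n / μ^n)` is `O(n^(-j(1-b)/2+δ))`.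
(b) If `log (c_n / μ^n) = φ(n) + O(n^(-D))` along `S`, with `D ≥ 0` and a comparison sequence `φ` whose
differences of order `r` with step `2` are `O(n^(-r(1-b)/2))` for all `r ≥ 1` and which is
`≤ n^(b+o(1))` along `S` (no condition if `b = 1/3`), then for all `j` and `δ > 0` the difference of
order `j` with step `2` of `log (c_n / μ^n) - φ(n)` is `O(n^(-D-j(1-b)/2+δ))`.
(c) If `b = 0` and `c_n = A μ^n n^(γ-1) (1 + O(n^(-D)))` along `S` with `A > 0` and `D > 1/2`, then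
`n (c_{n+2} / (μ² c_n) - 1) → 2 (γ - 1)` along all `n`. -/
theorem result : ∃ μ : ℝ, 0 < μ ∧
    Tendsto (fun n : ℕ => (c n : ℝ) ^ (1 / (n : ℝ))) atTop (𝓝 μ) ∧
    ∀ (b ε : ℝ) (S : Set ℕ), 0 ≤ b → b ≤ 1 / 3 → 0 < ε → ε ≤ (1 - b) / 2 →
      Meets S ((1 - b) / 2 - ε) →
      (Grows b S (fun n => Real.log ((c n : ℝ) / μ ^ n)) →
        (∀ b' : ℝ, b < b' → ∀ᶠ n : ℕ in atTop, Real.log ((c n : ℝ) / μ ^ n) ≤ (n : ℝ) ^ b') ∧
        ∀ (j : ℕ) (δ : ℝ), 1 ≤ j → 0 < δ →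
          (fun n : ℕ => diff j (fun m => Real.log ((c m : ℝ) / μ ^ m)) n) =O[atTop]
            fun n : ℕ => (n : ℝ) ^ (-(j * ((1 - b) / 2)) + δ)) ∧
      (∀ (φ : ℕ → ℝ) (D : ℝ), Smooth ((1 - b) / 2) φ → Grows b S φ → 0 ≤ D →
        ((fun n : ℕ => Real.log ((c n : ℝ) / μ ^ n) - φ n) =O[atTop ⊓ 𝓟 S]
          fun n : ℕ => (n : ℝ) ^ (-D)) →
        ∀ (j : ℕ) (δ : ℝ), 0 < δ →
          (fun n : ℕ => diff j (fun m => Real.log ((c m : ℝ) / μ ^ m) - φ m) n) =O[atTop]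
            fun n : ℕ => (n : ℝ) ^ (-D - j * ((1 - b) / 2) + δ)) ∧
      (b = 0 → ∀ A γ D : ℝ, 0 < A → 1 / 2 < D →
        ((fun n : ℕ => (c n : ℝ) / (A * μ ^ n * (n : ℝ) ^ (γ - 1)) - 1) =O[atTop ⊓ 𝓟 S]
          fun n : ℕ => (n : ℝ) ^ (-D)) →
        Tendsto (fun n : ℕ => (n : ℝ) * ((c (n + 2) : ℝ) / (μ ^ 2 * c n) - 1)) atTop
          (𝓝 (2 * (γ - 1)))) := by
  have hC : ∀ n, c n = Pool.Agent.H46R2.K3.c n := fun n => Pool.Agent.H46R2.K3.P.card_eq n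
  have hμ := Pool.Agent.J4H67.SH.mu_pos
  refine ⟨Pool.Agent.H46R2.K3.mu, hμ, ?_, fun b ε S hb hb1 hε hε' hS => ⟨fun hg => ?_,
    fun φ D hφ hg hD h j δ hδ => ?_, ?_⟩⟩
  · simpa only [hC] using Pool.Agent.H46R2.K3.P.tendsto_c
  · simp only [hC] at hg ⊢
    exact ⟨Pool.Agent.J4H67.SH.growth_all hb hb1 hε.le hS hg, fun j δ hj hδ =>
      Pool.Agent.J4H67.SH.diff_LL hb hb1 hε hS hg hj hδ⟩
  · simp only [hC] at h ⊢
    exact Pool.Agent.J4H67.SH.diff_gen hb hb1 hε hε' hS hφ hg hD h j hδ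
  · rintro rfl A γ D hA hD h
    have e0 : (1 - (0 : ℝ)) / 2 = 1 / 2 := by norm_num
    rw [e0] at hε' hS
    have e' : (fun n : ℕ => (c n : ℝ) / (A * Pool.Agent.H46R2.K3.mu ^ n * (n : ℝ) ^ (γ - 1)) - 1) =
        fun n : ℕ => Pool.Agent.J4H67.SH.uu n / (A * (n : ℝ) ^ (γ - 1)) - 1 := by
      funext n
      rw [hC, Pool.Agent.J4H67.SH.uu, div_div]
      congr 2
      ring
    rw [e'] at h
    have h2 := Pool.Agent.J4H67.SH.ratio_half hε hε' hS hA (γ - 1) hD h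
    refine h2.congr fun n => ?_
    have h3 := (Pool.Agent.J4H67.SH.c_pos n).ne'
    have h4 := hμ.ne'
    rw [Pool.Agent.J4H67.SH.uu, Pool.Agent.J4H67.SH.uu, hC, hC]
    congr 2
    rw [pow_add]
    field_simp

end Pool.Agent.Results.MP_794e6e_pr.SelfImprovingRegularity
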